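import Pool.Agent.Helper32.AG.Goals
import Pool.Agent.Helper46.KG.Defs

/-!
# PROJECT AG+ (MP_0f21ab_al): a solvable normal subgroup `N` with abelian Sylow `p`-subgroups of `G`
for the primes `p` dividing `|N|`, and `G / N` supersolvable or metabelian: `3 * |G| ≤ 3 ^ k(G)`.

Same proof as project AG of helper32 (`Pool.Agent.Helper32.AG.Goals`, definitions reused).
-/

set_option autoImplicit false

namespace Pool.Agent.Helper71.AG2

open Pool.Agent.Helper32.AG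
open scoped commutatorElement

universe u

/-- Every `p`-subgroup is commutative. -/
def AbP (p : ℕ) (G : Type u) [Group G] : Prop :=
  ∀ P : Subgroup G, IsPGroup p P → ∀ x ∈ P, ∀ y ∈ P, x * y = y * x

/-- Supersolvable or metabelian. -/
def Top (T : Type u) [Group T] : Prop :=
  Helper46.KG.IsSupersolvable T ∨ ∀ x ∈ commutator T, ∀ y ∈ commutator T, x * y = y * x

/-- The class: `T = G / N`, `N = ker f`. -/
def Cls (G : Type u) [Group G] : Prop :=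
  ∃ (T : Type u) (_ : Group T) (f : G →* T), Function.Surjective f ∧ Group.IsSolvable f.ker ∧
    (∀ p : ℕ, p.Prime → p ∣ Nat.card f.ker → AbP p G) ∧ Top T

/-- CORE. Proof: if `c ≠ 1` replace `x` by a power to get `c` of prime order `p ∣ n`
(`x ^ m * y = y * x ^ m * c ^ m`); then replace `x`, `y` by powers with exponents prime to `p` to
get `p`-elements; the subgroup generated by `x, y, c` is a `p`-group (`⟨c⟩ ⊔ ⟨x⟩` is a `p`-group
and normal in it, `IsPGroup.to_sup_of_normal_right'` or in the subgroup), so commutative. -/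
def CoreStmt : Prop := ∀ (G : Type u) [Group G] [Finite G] (n : ℕ), 0 < n →
  (∀ p : ℕ, p.Prime → p ∣ n → AbP p G) → ∀ x y c : G, x * y = y * x * c → c * x = x * c →
  c * y = y * c → c ^ n = 1 → c = 1

/-- ABP. As AGQ (Helper56/AG/AGQ.lean), for one prime. -/
def AbpStmt : Prop :=
  (∀ (G G' : Type u) [Group G] [Group G'] [Finite G] (p : ℕ) (f : G →* G'), p.Prime →
    Function.Surjective f → AbP p G → AbP p G') ∧
  (∀ (G G' : Type u) [Group G] [Group G'] (p : ℕ) (f : G →* G'),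
    Function.Injective f → AbP p G' → AbP p G)

/-- ELE'. May assume `CoreStmt`, `AbpStmt`. As ELE (Helper57/AG/ELE.lean): only the last step
changes: in `N / W` the element `c = ⁅x, y⁆` is central and in the image of `V`, a `p`-group. -/
def EleStmt : Prop := ∀ (G : Type u) [Group G] [Finite G] (p : ℕ), p.Prime →
  ∀ (V : Subgroup G) [V.Normal], IsPGroup p V → AbP p G →
  (∀ a ∈ V, ∀ b ∈ V, a * b = b * a) → ∀ x y : G, ⁅x, y⁆ ∈ V → ⁅x, y⁆ ∈ Wc V x y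

/-- PNH'. As PNH (Helper91/AG/PNH.lean). -/
def PnhStmt : Prop := ∀ (G : Type u) [Group G] [Finite G] (p : ℕ), p.Prime → AbP p G →
  ∀ (V : Subgroup G) [V.Normal], IsPGroup p V →
    ∀ g : G, ∃ m : ℕ, ¬ p ∣ m ∧ 0 < m ∧ ∀ v ∈ V, g ^ m * v = v * g ^ m

/-- TOP. Supersolvable: images `H i` map, intersections `H i ⊓ D` (the quotient of
`H (i+1) ⊓ D` by `H i ⊓ D` embeds into the cyclic group `H (i+1) / H i`: choose a generator `g'` of
the cyclic image, or: `{n | ∃ h ∈ H i, h * g ^ n ∈ D}` is a subgroup of `ℤ`). -/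
def TopStmt : Prop :=
  (∀ (G G' : Type u) [Group G] [Group G'] (f : G →* G'), Function.Surjective f → Top G → Top G') ∧
  (∀ (G G' : Type u) [Group G] [Group G'] (f : G →* G'), Function.Injective f → Top G' → Top G)

/-- CLS. May assume `AbpStmt`, `TopStmt`. Injective `j : D → G`: compose `f ∘ j`, range restricted.
Surjective `π : G → Q`: `N_Q = (ker f).map π`, `T_Q = Q ⧸ N_Q` is an image of `T` (as
`ker f ≤ ker (G → T_Q)`); `|N_Q|` divides `|N|`. -/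
def ClsStmt : Prop :=
  (∀ (G G' : Type u) [Group G] [Group G'] [Finite G] (f : G →* G'), Function.Surjective f →
    Cls G → Cls G') ∧
  (∀ (G G' : Type u) [Group G] [Group G'] [Finite G'] (f : G →* G'), Function.Injective f →
    Cls G' → Cls G)

/-- SOL. Groups in the class are solvable. (supersolvable groups are solvable) -/
def SolStmt : Prop := ∀ (G : Type u) [Group G], Cls G → Group.IsSolvable G

/-- MAX'. May assume `CoreStmt`, `SolStmt`. `A` maximal abelian normal; if `C = centralizer A` is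
not inside `A`, take `L` normal, `A < L ≤ C`, `⁅L, L⁆ ≤ A` (as in Helper79/AG/MAX.lean). (i) `x, y ∈ L`
with `⁅x, y⁆ ∈ N = ker f` commute (CORE with `n = |N|`; `⁅x, y⁆ ∈ A` is central in `L`). So
`A ⊔ (L ⊓ N)` is abelian normal, `L ⊓ N ≤ A`. (ii) `T` metabelian: `X = L ⊓ commutator H`: commutators
of elements of `X` are in `N` (`f` maps them to commutators of elements of `commutator T`), so `X` is
abelian by (i), `X ≤ A`; so `⁅L, H⁆ ≤ A`, and for `x ∈ L` the subgroup `A ⊔ zpowers x` is abelian and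
normal: `x ∈ A`, contradiction. (iii) `T` supersolvable with chain `K i`: `P i = (K i).comap f`,
`P 0 = N`, `P n = ⊤`; `i` minimal with `L ⊓ P (i+1)` not in `A`. Elements of `X = L ⊓ P (i+1)` are of
the form `h g ^ n` with `h ∈ P i`; `X` is cyclic modulo `X ⊓ P i = L ⊓ P i ≤ A`, and `A` is central
in `L`, so `X` is abelian and `A ⊔ X` is abelian and normal: contradiction. -/
def MaxStmt : Prop := ∀ (H : Type u) [Group H] [Finite H], Cls H →
  ∃ A : Subgroup H, A.Normal ∧ (∀ x ∈ A, ∀ y ∈ A, x * y = y * x) ∧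
    Subgroup.centralizer (A : Set H) ≤ A

/-- CNV'. As CNV (Helper54/AG/CNV.lean), with the minimal normal subgroup `V` inside `N`. -/
def CnvStmt : Prop := ∀ (G : Type u) [Group G] [Finite G] (N : Subgroup G), N.Normal → N ≠ ⊥ →
  Group.IsSolvable N →
  ∃ (p : ℕ) (_ : Fact p.Prime) (V : Subgroup G) (hV : V.Normal) (U : Type u) (_ : AddCommGroup U)
    (_ : Module (ZMod p) U) (_ : Finite U) (_ : Nontrivial U) (ρ : G →* (U ≃ₗ[ZMod p] U))
    (φ : V ≃ U), V ≤ N ∧ (∀ a ∈ V, ∀ b ∈ V, a * b = b * a) ∧ IsPGroup p V ∧ φ 1 = 0 ∧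
    (∀ (g : G) (v : V), φ ⟨g * (v : G) * g⁻¹, hV.conj_mem v v.2 g⟩ = ρ g (φ v)) ∧
    (∀ g ∈ V, ρ g = 1) ∧ Irr ρ.range

/-- N2'. `w = p ^ a - 1`. Large case (`n = u + f + c + r - 1 ≥ 18`): `2 n ≥ (2 w - 1)/e + e + 3`, so
`(2 n - 3) ^ 2 ≥ 4 (2 w - 1)`, `8 w ≤ (2 n - 3) ^ 2 + 4`. Otherwise `w ≤ 120`: finite. (helper71) -/
def N2Stmt : Prop := ∀ p a e α u f c r : ℕ, p.Prime → p ≠ 2 → 0 < a → 5 ≤ p ^ a → 0 < e → 0 < α →
  e ∣ a ^ 2 → ¬ p ∣ e → α ≤ 2 * e * u + 1 → e + 3 ≤ 2 * f → 1 ≤ c → 1 ≤ r →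
  3 * (2 * e * α) ≤ 3 ^ c * (2 * (p ^ a - 1)) → (p ^ a - 1) ^ 2 ≤ r * (2 * e * α) →
  (p ^ a) ^ 2 * (p ^ a - 1) ^ 2 ≤ 3 ^ (u + f + c + r - 1)

section Linear

variable {p : ℕ} [Fact p.Prime] {U : Type u} [AddCommGroup U] [Module (ZMod p) U]

/-- Outcome `s = 2`. -/
def TwoOut (H : Subgroup (U ≃ₗ[ZMod p] U)) : Prop :=
  ∃ a e α v f : ℕ, p ≠ 2 ∧ 0 < a ∧ 0 < e ∧ 0 < α ∧ Levels H 2 (p ^ a) ∧ e ∣ a ^ 2 ∧ ¬ p ∣ e ∧
    Nat.card H = 2 * e * α ∧ α ≤ 2 * e * v + 1 ∧ e + 3 ≤ 2 * f ∧ v + f ≤ k H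

end Linear

/-- TWB'. As TWB (Helper46/AG/TWB.lean) without the exceptional cases. May assume `GrpStmt`, `N4Stmt`,
`TwaStmt`, `LevStmt` of `Helper32.AG`. `f = k(H / A)`, `v = k(H) - f`. -/
def TwbStmt : Prop := ∀ (p : ℕ) [Fact p.Prime] (U : Type u) [AddCommGroup U] [Module (ZMod p) U]
  [Finite U] [Nontrivial U] (H A : Subgroup (U ≃ₗ[ZMod p] U)) (q : ℕ)
  (e : Fin 2 → Module.End (ZMod p) U), A ≤ H →
  (∀ h ∈ H, ∀ a ∈ A, h * a * h⁻¹ ∈ A) → (∀ a ∈ A, ∀ b ∈ A, a * b = b * a) →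
  (∀ h ∈ H, (∀ a ∈ A, h * a = a * h) → h ∈ A) → ¬ p ∣ Nat.card H → Dec H A 2 q e →
  TwoOut H ∨ ManyOut H

/-- LIN'. May assume `MaxStmt`, `TwbStmt` (here), `DecStmt`, `LevStmt`, `OneStmt` of `Helper32.AG`.
As Helper4/AG/LIN.lean. -/
def LinStmt : Prop := ∀ (p : ℕ) [Fact p.Prime] (U : Type u) [AddCommGroup U] [Module (ZMod p) U]
  [Finite U] [Nontrivial U] (H : Subgroup (U ≃ₗ[ZMod p] U)), Irr H → Cls H →
  ¬ p ∣ Nat.card H →
  (∃ s q, 3 ≤ s ∧ Levels H s q) ∨ OneOut H ∨ TwoOut H ∨ ManyOut H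

/-- STP'. As STP (Helper53/AG/STP.lean), two-block case with `N2Stmt` (here). -/
def StpStmt : Prop := ∀ (p : ℕ) [Fact p.Prime] (G : Type u) [Group G] [Finite G]
  (V : Subgroup G) [hV : V.Normal] (U : Type u) [AddCommGroup U] [Module (ZMod p) U] [Finite U]
  [Nontrivial U] (ρ : G →* (U ≃ₗ[ZMod p] U)) (φ : V ≃ U),
  (∀ a ∈ V, ∀ b ∈ V, a * b = b * a) → φ 1 = 0 →
  (∀ (g : G) (v : V), φ ⟨g * (v : G) * g⁻¹, hV.conj_mem v v.2 g⟩ = ρ g (φ v)) →
  (∀ g ∈ V, ρ g = 1) →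
  (∀ v : V, Nat.card {v' : V // IsConj (v : G) (v' : G)} * Nat.card (Kst V (v : G)) =
    Nat.card (G ⧸ V)) →
  (∃ T : Finset V, (∀ v : V, ∃ t ∈ T, IsConj (t : G) (v : G)) ∧
      (∀ t ∈ T, ∀ t' ∈ T, IsConj (t : G) (t' : G) → t = t') ∧
      ∑ t ∈ T, k (Kst V (t : G)) = k G) →
  (∀ v : V, 3 * Nat.card (Kst V (v : G)) ≤ 3 ^ k (Kst V (v : G))) →
  ((∃ s q, 3 ≤ s ∧ Levels ρ.range s q) ∨ OneOut ρ.range ∨ TwoOut ρ.range ∨ ManyOut ρ.range) →
  3 * Nat.card G ≤ 3 ^ k G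

/-- BASE. Supersolvable: `Helper46.KG.log_two_of_supersolvable` gives `|G| < 2 ^ k`, and
`3 * (2 ^ k - 1) ≤ 3 ^ k`. Metabelian: `Helper32.AG.GrpStmt` (1) for `N = commutator G` of index `m`,
`b = |N|`: `m ^ 2 + b ≤ m * k + 1` (also `Helper46.KG.StA`); `u = k - m`, `b ≤ m u + 1`,
`3 m (m u + 1) ≤ 3 ^ (m + u)`. -/
def BaseStmt : Prop := ∀ (G : Type u) [Group G] [Finite G], Top G → 3 * Nat.card G ≤ 3 ^ k G

/-- FIN. -/
def FinStmt : Prop := ∀ (G : Type u) [Group G] [Finite G], Cls G → 3 * Nat.card G ≤ 3 ^ k G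

end Pool.Agent.Helper71.AG2
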