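import Pool.Agent.Helper71.AG2.Goals

/-! # AG+, packet N2' -/

set_option autoImplicit false

namespace Pool.Agent.Helper71.AG2

/-- A lower bound for the exponent `c`. -/
def cc (x w : ℕ) : ℕ :=
  1 + (if w < x then 1 else 0) + (if 3 * w < x then 1 else 0) + (if 9 * w < x then 1 else 0)

theorem cc_le {x w c : ℕ} (hw : 0 < w) (hc : 1 ≤ c) (h : 3 * x ≤ 3 ^ c * w) : cc x w ≤ c := by
  have key : ∀ j : ℕ, 3 ^ j * w < x → j + 2 ≤ c := by
    intro j hj
    by_contra hcon
    have h1 : 3 ^ c ≤ 3 ^ (j + 1) := Nat.pow_le_pow_right (by norm_num) (by omega)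
    have h2 : 3 ^ c * w ≤ 3 ^ (j + 1) * w := Nat.mul_le_mul_right w h1
    have h3 : 3 ^ (j + 1) * w = 3 * (3 ^ j * w) := by ring
    omega
  have k0 := key 0
  have k1 := key 1
  have k2 := key 2
  norm_num at k0 k1 k2
  unfold cc
  split_ifs <;> omega

theorem ceil_le {x y z : ℕ} (hy : 0 < y) (h : x ≤ z * y) : (x + y - 1) / y ≤ z := by
  have : (x + y - 1) / y < z + 1 := by
    rw [Nat.div_lt_iff_lt_mul hy]
    have : (z + 1) * y = z * y + y := by ring
    omega
  omega

/-- The inequality of the finite check. -/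
def Chk (w e α : ℕ) : Prop :=
  (w * (w + 1)) ^ 2 ≤ 3 ^ ((α - 1 + 2 * e - 1) / (2 * e) + (e + 3 + 1) / 2 + cc (e * α) w +
    (w ^ 2 + 2 * e * α - 1) / (2 * e * α) - 1)

instance (w e α : ℕ) : Decidable (Chk w e α) := by unfold Chk; infer_instance

theorem fin1 : ∀ w < 121, 4 ≤ w → ∀ α < 36, 0 < α → Chk w 1 α := by
  decide +kernel

/-- An inner statement of the finite check. -/
def Fin2a (w e : ℕ) : Prop := ∀ α < 34 * e + 2, 0 < α → Chk w e α

instance (w e : ℕ) : Decidable (Fin2a w e) :=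
  inferInstanceAs (Decidable (∀ α < 34 * e + 2, 0 < α → Chk w e α))

/-- The middle statement of the finite check. -/
def Fin2b (p a e : ℕ) : Prop := 0 < e → a ^ 2 % e = 0 → ¬ (e % p = 0) → Fin2a (p ^ a - 1) e

instance (p a e : ℕ) : Decidable (Fin2b p a e) :=
  inferInstanceAs (Decidable (0 < e → a ^ 2 % e = 0 → ¬ (e % p = 0) → Fin2a (p ^ a - 1) e))

/-- The middle statement of the finite check. -/
def Fin2 (p a : ℕ) : Prop := p ^ a ≤ 121 → ∀ e < 17, Fin2b p a e

instance (p a : ℕ) : Decidable (Fin2 p a) :=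
  inferInstanceAs (Decidable (p ^ a ≤ 121 → ∀ e < 17, Fin2b p a e))

theorem fin2 : ∀ p ∈ [3, 5, 7, 11], ∀ a ∈ [2, 3, 4], Fin2 p a := by
  decide +kernel

theorem large (n : ℕ) (hn : 18 ≤ n) :
    ((2 * n - 3) ^ 2 * ((2 * n - 3) ^ 2 + 8)) ^ 2 ≤ 4096 * 3 ^ n := by
  obtain ⟨m, rfl⟩ := Nat.exists_eq_add_of_le' hn
  clear hn
  have e0 : ∀ m : ℕ, 2 * (m + 18) - 3 = 2 * m + 33 := by intro m; omega
  rw [e0]
  induction m with
  | zero => norm_num
  | succ m ih =>
    have e : 3 * ((2 * m + 33) ^ 2 * ((2 * m + 33) ^ 2 + 8)) ^ 2 =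
        ((2 * (m + 1) + 33) ^ 2 * ((2 * (m + 1) + 33) ^ 2 + 8)) ^ 2 +
        (2000060333442 + 1028747546496 * m + 230025476576 * m ^ 2 + 29234535424 * m ^ 3 +
          2311837888 * m ^ 4 + 116561920 * m ^ 5 + 3661312 * m ^ 6 + 65536 * m ^ 7 +
          512 * m ^ 8) := by ring
    have e2 : 4096 * 3 ^ (m + 1 + 18) = 3 * (4096 * 3 ^ (m + 18)) := by ring
    rw [e2]
    refine le_trans ?_ (Nat.mul_le_mul_left 3 ih)
    rw [e]
    exact Nat.le_add_right _ _

/-- **N2'.** -/
theorem n2 : N2Stmt := by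
  intro p a e α u f c r hp hp2 ha hq he hα hea hpe hu hf hc hr hc3 hw2
  generalize hwdef : p ^ a - 1 = w at *
  have hqw : p ^ a = w + 1 := by omega
  have hw4 : 4 ≤ w := by omega
  rw [hqw]
  have hgoal : (w + 1) ^ 2 * w ^ 2 = (w * (w + 1)) ^ 2 := by ring
  rw [hgoal]
  -- the main bound
  have h1 : w ≤ e * (u + r) := by
    have h2 : (2 * w) ^ 2 ≤ (2 * e * u + 1 + 2 * e * r) ^ 2 := by
      have h3 : w ^ 2 ≤ (2 * e * r) * (2 * e * u + 1) := by
        calc w ^ 2 ≤ r * (2 * e * α) := hw2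
          _ = (2 * e * r) * α := by ring
          _ ≤ _ := Nat.mul_le_mul_left _ hu
      zify at h3 ⊢
      nlinarith [sq_nonneg ((2 * e * u + 1 : ℤ) - 2 * e * r)]
    have h4 : 2 * w ≤ 2 * e * u + 1 + 2 * e * r := by
      by_contra hcon
      push Not at hcon
      have := Nat.pow_lt_pow_left hcon (n := 2) (by norm_num)
      omega
    have h5 : 2 * e * u + 1 + 2 * e * r = 2 * (e * (u + r)) + 1 := by ring
    omega
  have h8 : 8 * w ≤ (2 * (u + f + c + r - 1) - 3) ^ 2 := by
    have h2 : 2 * (u + r) + e ≤ 2 * (u + f + c + r - 1) - 3 := by omega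
    calc 8 * w ≤ 8 * (e * (u + r)) := Nat.mul_le_mul_left 8 h1
      _ ≤ (2 * (u + r) + e) ^ 2 := by
          zify
          nlinarith [sq_nonneg ((2 * (u + r) : ℤ) - e)]
      _ ≤ _ := Nat.pow_le_pow_left h2 2
  rcases Nat.lt_or_ge 17 (u + f + c + r - 1) with hn | hn
  · have hl := large (u + f + c + r - 1) hn
    have h2 : (8 * w * (8 * w + 8)) ^ 2 ≤ ((2 * (u + f + c + r - 1) - 3) ^ 2 *
        ((2 * (u + f + c + r - 1) - 3) ^ 2 + 8)) ^ 2 :=
      Nat.pow_le_pow_left (Nat.mul_le_mul h8 (Nat.add_le_add_right h8 8)) 2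
    have h3 : (8 * w * (8 * w + 8)) ^ 2 = 4096 * (w * (w + 1)) ^ 2 := by ring
    rw [h3] at h2
    exact Nat.le_of_mul_le_mul_left (h2.trans hl) (by norm_num)
  · have hb : 8 * w ≤ 961 := by
      refine h8.trans ?_
      calc (2 * (u + f + c + r - 1) - 3) ^ 2 ≤ 31 ^ 2 := Nat.pow_le_pow_left (by omega) 2
        _ = 961 := by norm_num
    have hw120 : w ≤ 120 := by omega
    have hu17 : u ≤ 17 := by omega
    have hu' : (α - 1 + 2 * e - 1) / (2 * e) ≤ u := by
      apply ceil_le (by omega)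
      have : u * (2 * e) = 2 * e * u := by ring
      omega
    have hf' : (e + 3 + 1) / 2 ≤ f := by omega
    have hc' : cc (e * α) w ≤ c := by
      apply cc_le (by omega) hc
      have e1 : 3 * (2 * e * α) = 2 * (3 * (e * α)) := by ring
      have e2 : 3 ^ c * (2 * w) = 2 * (3 ^ c * w) := by ring
      omega
    have hr' : (w ^ 2 + 2 * e * α - 1) / (2 * e * α) ≤ r :=
      ceil_le (Nat.mul_pos (Nat.mul_pos (by norm_num) he) hα) hw2
    have hchk : Chk w e α → (w * (w + 1)) ^ 2 ≤ 3 ^ (u + f + c + r - 1) := by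
      intro h
      refine h.trans (Nat.pow_le_pow_right (by norm_num) ?_)
      omega
    apply hchk
    have hα1 : α < 34 * e + 2 := by
      have : 2 * e * u ≤ 2 * e * 17 := Nat.mul_le_mul_left _ hu17
      omega
    rcases Nat.lt_or_ge 1 a with ha2 | ha1
    · have hp3 : 3 ≤ p := by
        have := hp.two_le
        omega
      have ha5 : a < 5 := by
        by_contra hcon
        have : 3 ^ 5 ≤ p ^ a := (Nat.pow_le_pow_left hp3 5).trans
          (Nat.pow_le_pow_right (by omega) (by omega))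
        norm_num at this
        omega
      have hp12 : p < 12 := by
        by_contra hcon
        have : 12 ^ 2 ≤ p ^ a := (Nat.pow_le_pow_left (by omega) 2).trans
          (Nat.pow_le_pow_right (by omega) ha2)
        norm_num at this
        omega
      have hpm : p ∈ [3, 5, 7, 11] := by
        clear hea hpe hqw hwdef hq
        interval_cases p <;> first | (simp; done) | exact absurd hp (by norm_num)
      have ham : a ∈ [2, 3, 4] := by
        clear hea hpe hqw hwdef hq
        interval_cases a <;> simp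
      have he17 : e < 17 := by
        have h2 : e ≤ a ^ 2 := Nat.le_of_dvd (by positivity) hea
        have h3 : a ^ 2 ≤ 4 ^ 2 := Nat.pow_le_pow_left (by omega) 2
        norm_num at h3
        omega
      have := fin2 p hpm a ham (by omega) e he17 he (Nat.mod_eq_zero_of_dvd hea)
        (fun h => hpe (Nat.dvd_of_mod_eq_zero h)) α hα1 hα
      rwa [hwdef] at this
    · have ha1' : a = 1 := by omega
      subst ha1'
      have he1 : e = 1 := by
        rw [one_pow] at hea
        exact Nat.dvd_one.1 hea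
      subst he1
      exact fin1 w (by omega) hw4 α (by omega) hα

end Pool.Agent.Helper71.AG2
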